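import Pool.Agent.Run7.h991.MU.Iface

/-!
# Piece LOC of project MU (MP_dde81e_an)
-/

open MeasureTheory Metric

namespace Run7.h237.MU

open H991.MU

theorem card_le_of_interval (S : Finset ℕ) (X ρ : ℝ) (hρ : 0 ≤ ρ)
    (h : ∀ n ∈ S, X ≤ (n : ℝ) ∧ (n : ℝ) ≤ X + ρ) : (S.card : ℝ) ≤ ρ + 1 := by
  rcases S.eq_empty_or_nonempty with rfl | hS
  · simp; linarith
  · have hsub : S ⊆ Finset.Icc (S.min' hS) (S.max' hS) := by
      intro n hn
      exact Finset.mem_Icc.2 ⟨S.min'_le n hn, S.le_max' n hn⟩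
    have hc := Finset.card_le_card hsub
    rw [Nat.card_Icc] at hc
    have h1 := h _ (S.min'_mem hS)
    have h2 := h _ (S.max'_mem hS)
    have hle : S.min' hS ≤ S.max' hS := S.min'_le _ (S.max'_mem hS)
    have hc' : (S.card : ℝ) ≤ (S.max' hS : ℝ) + 1 - (S.min' hS : ℝ) := by
      have : S.card + S.min' hS ≤ S.max' hS + 1 := by omega
      have h3 : ((S.card + S.min' hS : ℕ) : ℝ) ≤ ((S.max' hS + 1 : ℕ) : ℝ) := by exact_mod_cast this
      push_cast at h3
      linarith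
    linarith [h1.1, h2.2]

theorem half_pow_le (δ ρ : ℝ) (N : ℕ) (hN : δ * ρ / 4 ≤ (N : ℝ)) :
    (1 / 2 : ℝ) ^ N ≤ Real.exp (-(δ / 4 * Real.log 2 * ρ)) := by
  have h2 : (1 / 2 : ℝ) = Real.exp (-Real.log 2) := by
    rw [Real.exp_neg, Real.exp_log (by norm_num)]; norm_num
  rw [h2, ← Real.exp_nat_mul]
  apply Real.exp_le_exp.2
  have hl : 0 < Real.log 2 := Real.log_pos (by norm_num)
  nlinarith

theorem t_LOC (hZ : S_ZER) (hL : S_LAG) : S_LOC := by
  intro δ hδ
  have hl : 0 < Real.log 2 := Real.log_pos (by norm_num)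
  obtain ⟨c, ρ₀, hc, hρ₀, H⟩ := hL (δ / 4) (δ / 4 * Real.log 2) (by positivity) (by positivity)
  refine ⟨c, max ρ₀ 1, hc, by positivity, ?_⟩
  intro ρ X Y Φ Z hρ hΦ hB hZp hcard z hz w hw
  have hρ1 : 1 ≤ ρ := le_trans (le_max_right _ _) hρ
  have hρ2 : ρ₀ ≤ ρ := le_trans (le_max_left _ _) hρ
  have hρ0 : 0 < ρ := by linarith
  classical
  -- rows
  set R : Finset ℕ := Z.image Prod.snd with hR
  set N : ℕ → ℕ := fun n => (Z.filter (fun p => p.2 = n)).card with hN
  set B : Finset ℕ := R.filter (fun n => δ * ρ / 4 ≤ (N n : ℝ)) with hBdef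
  have hrow : ∀ n, (N n : ℝ) ≤ ρ + 1 := by
    intro n
    have hinj : N n = ((Z.filter (fun p => p.2 = n)).image Prod.fst).card := by
      rw [Finset.card_image_of_injOn]
      intro p hp q hq hpq
      simp only [Finset.coe_filter, Set.mem_setOf_eq] at hp hq
      exact Prod.ext hpq (hp.2.trans hq.2.symm)
    rw [hinj]
    apply card_le_of_interval _ X ρ hρ0.le
    intro m hm
    obtain ⟨p, hp, rfl⟩ := Finset.mem_image.1 hm
    have := hZp p (Finset.mem_filter.1 hp).1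
    exact ⟨this.1, this.2.1⟩
  have hRc : (R.card : ℝ) ≤ ρ + 1 := by
    apply card_le_of_interval _ Y ρ hρ0.le
    intro m hm
    obtain ⟨p, hp, rfl⟩ := Finset.mem_image.1 hm
    have := hZp p hp
    exact ⟨this.2.2.1, this.2.2.2.1⟩
  have hsum : (Z.card : ℝ) = ∑ n ∈ R, (N n : ℝ) := by
    have : Z.card = ∑ n ∈ R, N n := Finset.card_eq_sum_card_image Prod.snd Z
    rw [this]; push_cast; rfl
  have hsplit : ∑ n ∈ R, (N n : ℝ) ≤ (B.card : ℝ) * (ρ + 1) + (ρ + 1) * (δ * ρ / 4) := by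
    rw [← Finset.sum_filter_add_sum_filter_not R (fun n => δ * ρ / 4 ≤ (N n : ℝ))]
    apply add_le_add
    · calc ∑ n ∈ R.filter (fun n => δ * ρ / 4 ≤ (N n : ℝ)), (N n : ℝ)
          ≤ ∑ n ∈ R.filter (fun n => δ * ρ / 4 ≤ (N n : ℝ)), (ρ + 1) :=
            Finset.sum_le_sum (fun n _ => hrow n)
        _ = (B.card : ℝ) * (ρ + 1) := by rw [Finset.sum_const, nsmul_eq_mul]
    · calc ∑ n ∈ R.filter (fun n => ¬ δ * ρ / 4 ≤ (N n : ℝ)), (N n : ℝ)
          ≤ ∑ n ∈ R.filter (fun n => ¬ δ * ρ / 4 ≤ (N n : ℝ)), (δ * ρ / 4) := by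
            apply Finset.sum_le_sum
            intro n hn
            have := (Finset.mem_filter.1 hn).2
            linarith
        _ = ((R.filter (fun n => ¬ δ * ρ / 4 ≤ (N n : ℝ))).card : ℝ) * (δ * ρ / 4) := by
            rw [Finset.sum_const, nsmul_eq_mul]
        _ ≤ (ρ + 1) * (δ * ρ / 4) := by
            apply mul_le_mul_of_nonneg_right _ (by positivity)
            refine le_trans ?_ hRc
            exact_mod_cast Finset.card_filter_le _ _
  have hBc : δ / 4 * ρ ≤ (B.card : ℝ) := by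
    have h1 : δ * ρ ^ 2 ≤ (ρ + 1) * ((B.card : ℝ) + δ * ρ / 4) := by
      rw [hsum] at hcard; nlinarith
    have h2 : (ρ + 1) * ((B.card : ℝ) + δ * ρ / 4) ≤ (2 * ρ) * ((B.card : ℝ) + δ * ρ / 4) := by
      apply mul_le_mul_of_nonneg_right (by linarith)
      positivity
    have h3 : ρ * (δ * ρ) ≤ ρ * (2 * ((B.card : ℝ) + δ * ρ / 4)) := by nlinarith
    have h4 := le_of_mul_le_mul_left h3 hρ0
    linarith
  -- smallness in the rows of B
  have hmemY : ∀ n : ℕ, n ∈ R → ((n : ℂ)) ∈ closedBall (Y : ℂ) ρ := by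
    intro n hn
    obtain ⟨p, hp, rfl⟩ := Finset.mem_image.1 hn
    have := hZp p hp
    rw [mem_closedBall, dist_eq_norm]
    have e : ((p.2 : ℂ)) - (Y : ℂ) = (((p.2 : ℝ) - Y : ℝ) : ℂ) := by push_cast; ring
    rw [e, Complex.norm_real, Real.norm_eq_abs, abs_of_nonneg (by linarith [this.2.2.1])]
    linarith [this.2.2.2.1]
  have hbig : ∀ (a : ℝ) (u : ℂ), u ∈ closedBall (a : ℂ) ρ → u ∈ ball (a : ℂ) (8 * ρ) := by
    intro a u hu
    rw [mem_closedBall] at hu
    rw [mem_ball]; linarith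
  have hsmall : ∀ n ∈ B, ∀ z ∈ closedBall (X : ℂ) ρ,
      ‖Φ (z, (n : ℂ))‖ ≤ Real.exp (-(δ / 4 * Real.log 2 * ρ)) := by
    intro n hn z hz
    have hnR : n ∈ R := (Finset.mem_filter.1 hn).1
    have hnN : δ * ρ / 4 ≤ (N n : ℝ) := (Finset.mem_filter.1 hn).2
    have hnY := hbig Y _ (hmemY n hnR)
    set Zn : Finset ℂ := (Z.filter (fun p => p.2 = n)).image (fun p => (p.1 : ℂ)) with hZn
    have hZc : Zn.card = N n := by
      rw [hZn, Finset.card_image_of_injOn]
      intro p hp q hq hpq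
      simp only [Finset.coe_filter, Set.mem_setOf_eq] at hp hq
      have hpq' : (p.1 : ℂ) = (q.1 : ℂ) := hpq
      exact Prod.ext (by exact_mod_cast hpq') (hp.2.trans hq.2.symm)
    have h1 := hZ ρ 1 (X : ℂ) (fun z => Φ (z, (n : ℂ))) Zn hρ0 zero_le_one
      (by
        apply hΦ.comp
        · exact (differentiable_id.prodMk (differentiable_const _)).differentiableOn
        · intro z hz
          exact ⟨hz, hnY⟩)
      (fun z hz => hB _ ⟨hz, hnY⟩)
      (by
        intro a ha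
        obtain ⟨p, hp, rfl⟩ := Finset.mem_image.1 ha
        have hp' := Finset.mem_filter.1 hp
        have h := hZp p hp'.1
        refine ⟨?_, ?_⟩
        · rw [mem_closedBall, dist_eq_norm]
          have e : ((p.1 : ℂ)) - (X : ℂ) = (((p.1 : ℝ) - X : ℝ) : ℂ) := by push_cast; ring
          rw [e, Complex.norm_real, Real.norm_eq_abs, abs_of_nonneg (by linarith [h.1])]
          linarith [h.2.1]
        · have := h.2.2.2.2
          rw [hp'.2] at this
          exact this)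
      z hz
    rw [one_mul, hZc] at h1
    exact h1.trans (half_pow_le δ ρ (N n) hnN)
  have hzX := hbig X z hz
  refine H ρ Y (fun w => Φ (z, w)) B hρ2 ?_ ?_ ?_ hBc w hw
  · apply hΦ.comp
    · exact ((differentiable_const _).prodMk differentiable_id).differentiableOn
    · intro w hw
      exact ⟨hzX, hw⟩
  · intro w hw
    exact hB _ ⟨hzX, hw⟩
  · intro n hn
    refine ⟨?_, hsmall n hn z hz⟩
    have := hmemY n (Finset.mem_filter.1 hn).1
    rw [mem_closedBall, dist_eq_norm] at this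
    have e : ((n : ℂ)) - (Y : ℂ) = (((n : ℝ) - Y : ℝ) : ℂ) := by push_cast; ring
    rw [e, Complex.norm_real, Real.norm_eq_abs] at this
    exact this

end Run7.h237.MU
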