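import Pool.Agent.Run7.h991.MU.Iface
import Pool.Agent.Run7.h237.MU.LOC

/-!
# Piece COUNT of project MU (MP_dde81e_an)
-/

open MeasureTheory Metric

namespace Run7.h237.MU

open H991.MU

theorem card_square (S : Finset (ℕ × ℕ)) (X Y ρ : ℝ) (hρ : 0 ≤ ρ)
    (h : ∀ p ∈ S, X ≤ (p.1 : ℝ) ∧ (p.1 : ℝ) ≤ X + ρ ∧ Y ≤ (p.2 : ℝ) ∧ (p.2 : ℝ) ≤ Y + ρ) :
    (S.card : ℝ) ≤ (ρ + 1) ^ 2 := by
  classical
  have hsub : S ⊆ (S.image Prod.fst) ×ˢ (S.image Prod.snd) := by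
    intro p hp
    exact Finset.mem_product.2 ⟨Finset.mem_image_of_mem _ hp, Finset.mem_image_of_mem _ hp⟩
  have h1 : ((S.image Prod.fst).card : ℝ) ≤ ρ + 1 := by
    apply card_le_of_interval _ X ρ hρ
    intro m hm
    obtain ⟨p, hp, rfl⟩ := Finset.mem_image.1 hm
    exact ⟨(h p hp).1, (h p hp).2.1⟩
  have h2 : ((S.image Prod.snd).card : ℝ) ≤ ρ + 1 := by
    apply card_le_of_interval _ Y ρ hρ
    intro m hm
    obtain ⟨p, hp, rfl⟩ := Finset.mem_image.1 hm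
    exact ⟨(h p hp).2.2.1, (h p hp).2.2.2⟩
  have h3 : (S.card : ℝ) ≤ ((S.image Prod.fst).card : ℝ) * ((S.image Prod.snd).card : ℝ) := by
    have := Finset.card_le_card hsub
    rw [Finset.card_product] at this
    exact_mod_cast this
  calc (S.card : ℝ) ≤ _ := h3
    _ ≤ (ρ + 1) * (ρ + 1) := mul_le_mul h1 h2 (by positivity) (by positivity)
    _ = (ρ + 1) ^ 2 := by ring

theorem t_COUNT : S_COUNT := by
  intro Ω ε δ τ κ Bd bad hε hε1 hδ hτ hκ hκ1 hBd hτ2 hκτ hκB hΩ hD hbad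
  classical
  by_contra hcon
  push Not at hcon
  -- a common threshold
  set M : ℕ := ⌊1 / κ⌋₊ with hM
  have hMκ : (M : ℝ) ≤ 1 / κ := Nat.floor_le (by positivity)
  have hMa : ∀ a : ℕ, (a : ℝ) * κ ≤ 1 → a ∈ Finset.range (M + 1) := by
    intro a ha
    rw [Finset.mem_range]
    have : (a : ℝ) ≤ 1 / κ := by rw [le_div_iff₀ hκ]; exact ha
    have := Nat.le_floor this
    omega
  set T : Finset (ℕ × ℕ) := (Finset.range (M + 1) ×ˢ Finset.range (M + 1)).filter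
    (fun t => τ / 2 ≤ t.1 * κ ∧ (t.1 : ℝ) * κ ≤ 1 ∧ ε * τ / 2 ≤ t.2 * κ ∧ (t.2 : ℝ) * κ ≤ 1) with hT
  have hthr : ∀ t : ℕ × ℕ, ∃ R₀ : ℝ, t ∈ T → ¬ bad t.1 t.2 → ∀ R : ℝ, R₀ ≤ R →
      ∀ Z : Finset (ℕ × ℕ), (Z : Set (ℕ × ℕ)) ⊆ Ω →
        (∀ p ∈ Z, R * (t.1 * κ) ≤ (p.1 : ℝ) ∧ (p.1 : ℝ) ≤ R * (t.1 * κ) + κ * R ∧
          R * (t.2 * κ) ≤ (p.2 : ℝ) ∧ (p.2 : ℝ) ≤ R * (t.2 * κ) + κ * R) →
        (Z.card : ℝ) < δ / 16 * (κ * R) ^ 2 := by
    intro t
    by_cases ht : t ∈ T ∧ ¬ bad t.1 t.2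
    · obtain ⟨htT, htb⟩ := ht
      have h := (Finset.mem_filter.1 htT).2
      obtain ⟨R₀, hR₀⟩ := hcon t.1 t.2 htb h.1 h.2.1 h.2.2.1 h.2.2.2
      exact ⟨R₀, fun _ _ R hR Z hZ hp => hR₀ R hR Z hZ hp⟩
    · exact ⟨0, fun h1 h2 => absurd ⟨h1, h2⟩ ht⟩
  choose thr hthr using hthr
  obtain ⟨R1, hR1⟩ : ∃ R1 : ℝ, ∀ t ∈ T, thr t ≤ R1 := by
    rcases T.eq_empty_or_nonempty with h | h
    · exact ⟨0, by simp [h]⟩
    · exact ⟨T.sup' h thr, fun t ht => Finset.le_sup' thr ht⟩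
  obtain ⟨R, hR0, hR⟩ := hD ⌈max R1 (1 / κ)⌉₊
  have hRR : max R1 (1 / κ) ≤ (R : ℝ) := le_trans (Nat.le_ceil _) (by exact_mod_cast hR0)
  have hRκ : 1 / κ ≤ (R : ℝ) := le_trans (le_max_right _ _) hRR
  have hR1' : R1 ≤ (R : ℝ) := le_trans (le_max_left _ _) hRR
  have hκR : 1 ≤ κ * R := by
    rw [div_le_iff₀ hκ] at hRκ; linarith
  have hRpos : 0 < (R : ℝ) := lt_of_lt_of_le (by positivity) hRκ
  have hκRpos : 0 < κ * R := by positivity
  -- the finite set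
  set S : Finset (ℕ × ℕ) := (Finset.range (R + 1) ×ˢ Finset.range (R + 1)).filter (fun p => p ∈ Ω)
    with hS
  have hSc : {p ∈ Ω | p.1 ≤ R ∧ p.2 ≤ R} = (S : Set (ℕ × ℕ)) := by
    ext p
    simp only [hS, Finset.coe_filter, Finset.mem_product, Finset.mem_range, Set.mem_setOf_eq]
    constructor
    · rintro ⟨h1, h2, h3⟩; exact ⟨⟨by omega, by omega⟩, h1⟩
    · rintro ⟨⟨h1, h2⟩, h3⟩; exact ⟨h3, by omega, by omega⟩
  rw [hSc, Set.ncard_coe_finset] at hR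
  have hSm : ∀ p ∈ S, p ∈ Ω ∧ (p.1 : ℝ) ≤ R ∧ (p.2 : ℝ) ≤ R := by
    intro p hp
    have h := Finset.mem_filter.1 hp
    have h1 := Finset.mem_product.1 h.1
    have h2 := Finset.mem_range.1 h1.1
    have h3 := Finset.mem_range.1 h1.2
    exact ⟨h.2, by exact_mod_cast (by omega : p.1 ≤ R), by exact_mod_cast (by omega : p.2 ≤ R)⟩
  set S1 := S.filter (fun p => (p.1 : ℝ) ≤ τ * R) with hS1
  set S2 := S.filter (fun p => ¬ (p.1 : ℝ) ≤ τ * R) with hS2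
  have hcard : S.card = S1.card + S2.card := (Finset.card_filter_add_card_filter_not _).symm
  -- first part
  have hc1 : (S1.card : ℝ) ≤ δ * R ^ 2 / 4 := by
    have hsub : S1 ⊆ Finset.Icc 1 ⌊τ * R⌋₊ ×ˢ Finset.Icc 1 ⌊τ * R / ε⌋₊ := by
      intro p hp
      have h := Finset.mem_filter.1 hp
      have h1 := hSm p h.1
      have h2 := hΩ p h1.1
      rw [Finset.mem_product, Finset.mem_Icc, Finset.mem_Icc]
      refine ⟨⟨h2.1, Nat.le_floor h.2⟩, ⟨h2.2.1, Nat.le_floor ?_⟩⟩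
      rw [le_div_iff₀ hε]
      linarith [h2.2.2.2, h.2]
    have hc := Finset.card_le_card hsub
    rw [Finset.card_product, Nat.card_Icc, Nat.card_Icc, Nat.add_sub_cancel, Nat.add_sub_cancel] at hc
    have hc' : (S1.card : ℝ) ≤ (⌊τ * R⌋₊ : ℝ) * (⌊τ * R / ε⌋₊ : ℝ) := by exact_mod_cast hc
    have e1 : (⌊τ * R⌋₊ : ℝ) ≤ τ * R := Nat.floor_le (by positivity)
    have e2 : (⌊τ * R / ε⌋₊ : ℝ) ≤ τ * R / ε := Nat.floor_le (by positivity)
    calc (S1.card : ℝ) ≤ _ := hc'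
      _ ≤ (τ * R) * (τ * R / ε) := mul_le_mul e1 e2 (by positivity) (by positivity)
      _ = τ ^ 2 / ε * R ^ 2 := by field_simp
      _ ≤ (δ / 4) * R ^ 2 := by
        apply mul_le_mul_of_nonneg_right _ (by positivity)
        rw [div_le_iff₀ hε]; linarith
      _ = δ * R ^ 2 / 4 := by ring
  -- second part
  set sq : ℕ × ℕ → ℕ × ℕ := fun p => (⌊(p.1 : ℝ) / (κ * R)⌋₊, ⌊(p.2 : ℝ) / (κ * R)⌋₊) with hsq
  have hfl : ∀ n : ℕ, (⌊(n : ℝ) / (κ * R)⌋₊ : ℝ) * (κ * R) ≤ n ∧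
      (n : ℝ) < ((⌊(n : ℝ) / (κ * R)⌋₊ : ℝ) + 1) * (κ * R) := by
    intro n
    constructor
    · rw [← le_div_iff₀ hκRpos]; exact Nat.floor_le (by positivity)
    · rw [← div_lt_iff₀ hκRpos]; exact Nat.lt_floor_add_one _
  have hmaps : ∀ p ∈ S2, sq p ∈ T := by
    intro p hp
    have h := Finset.mem_filter.1 hp
    have h1 := hSm p h.1
    have h2 := hΩ p h1.1
    have h3 := not_le.1 h.2
    have f1 := hfl p.1
    have f2 := hfl p.2
    have g1 : ((⌊(p.1 : ℝ) / (κ * R)⌋₊ : ℝ)) * κ ≤ 1 := by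
      have : ((⌊(p.1 : ℝ) / (κ * R)⌋₊ : ℝ)) * κ * R ≤ 1 * R := by nlinarith [f1.1, h1.2.1]
      exact le_of_mul_le_mul_right this hRpos
    have g2 : ((⌊(p.2 : ℝ) / (κ * R)⌋₊ : ℝ)) * κ ≤ 1 := by
      have : ((⌊(p.2 : ℝ) / (κ * R)⌋₊ : ℝ)) * κ * R ≤ 1 * R := by nlinarith [f2.1, h1.2.2]
      exact le_of_mul_le_mul_right this hRpos
    have hετ : ε * τ ≤ τ := by nlinarith
    have g3 : τ / 2 ≤ ((⌊(p.1 : ℝ) / (κ * R)⌋₊ : ℝ)) * κ := by
      have : τ * R < (((⌊(p.1 : ℝ) / (κ * R)⌋₊ : ℝ)) * κ + κ) * R := by nlinarith [f1.2]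
      have := lt_of_mul_lt_mul_right this hRpos.le
      linarith
    have g4 : ε * τ / 2 ≤ ((⌊(p.2 : ℝ) / (κ * R)⌋₊ : ℝ)) * κ := by
      have h4 : ε * (τ * R) ≤ (p.2 : ℝ) := by
        have := mul_le_mul_of_nonneg_left h3.le hε.le
        linarith [h2.2.2.1]
      have : (ε * τ) * R < (((⌊(p.2 : ℝ) / (κ * R)⌋₊ : ℝ)) * κ + κ) * R := by nlinarith [f2.2]
      have := lt_of_mul_lt_mul_right this hRpos.le
      linarith
    rw [hT, Finset.mem_filter, Finset.mem_product]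
    exact ⟨⟨hMa _ g1, hMa _ g2⟩, g3, g1, g4, g2⟩
  have hfibre : ∀ t : ℕ × ℕ, ∀ p ∈ S2.filter (fun p => sq p = t),
      (R : ℝ) * (t.1 * κ) ≤ (p.1 : ℝ) ∧ (p.1 : ℝ) ≤ R * (t.1 * κ) + κ * R ∧
          (R : ℝ) * (t.2 * κ) ≤ (p.2 : ℝ) ∧ (p.2 : ℝ) ≤ R * (t.2 * κ) + κ * R := by
    intro t p hp
    have h := (Finset.mem_filter.1 hp).2
    subst h
    have f1 := hfl p.1
    have f2 := hfl p.2
    refine ⟨?_, ?_, ?_, ?_⟩
    · show (R : ℝ) * ((⌊(p.1 : ℝ) / (κ * R)⌋₊ : ℝ) * κ) ≤ _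
      nlinarith [f1.1]
    · show _ ≤ (R : ℝ) * ((⌊(p.1 : ℝ) / (κ * R)⌋₊ : ℝ) * κ) + κ * R
      nlinarith [f1.2]
    · show (R : ℝ) * ((⌊(p.2 : ℝ) / (κ * R)⌋₊ : ℝ) * κ) ≤ _
      nlinarith [f2.1]
    · show _ ≤ (R : ℝ) * ((⌊(p.2 : ℝ) / (κ * R)⌋₊ : ℝ) * κ) + κ * R
      nlinarith [f2.2]
  have hsum : (S2.card : ℝ) = ∑ t ∈ T, ((S2.filter (fun p => sq p = t)).card : ℝ) := by
    have := Finset.card_eq_sum_card_fiberwise (f := sq) (s := S2) (t := T) (fun p hp => hmaps p hp)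
    rw [this]; push_cast; rfl
  have hM2 : ((M : ℝ) + 1) ≤ 2 / κ := by
    have : 1 ≤ 1 / κ := by rw [le_div_iff₀ hκ]; linarith
    have e : 2 / κ = 1 / κ + 1 / κ := by ring
    rw [e]; linarith
  have hTc : (T.card : ℝ) ≤ 4 / κ ^ 2 := by
    have h1 : T.card ≤ (M + 1) * (M + 1) := by
      refine le_trans (Finset.card_filter_le _ _) ?_
      rw [Finset.card_product, Finset.card_range]
    have h2 : (T.card : ℝ) ≤ ((M : ℝ) + 1) * ((M : ℝ) + 1) := by exact_mod_cast h1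
    calc (T.card : ℝ) ≤ _ := h2
      _ ≤ (2 / κ) * (2 / κ) := mul_le_mul hM2 hM2 (by positivity) (by positivity)
      _ = 4 / κ ^ 2 := by field_simp; ring
  have hTb : ((T.filter (fun t => bad t.1 t.2)).card : ℝ) ≤ 2 / κ * Bd := by
    have h1 : (T.filter (fun t => bad t.1 t.2)).card =
        ∑ a ∈ Finset.range (M + 1), ((T.filter (fun t => bad t.1 t.2)).filter (fun t => t.1 = a)).card :=
      Finset.card_eq_sum_card_fiberwise (f := Prod.fst) (fun t ht => by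
        have := (Finset.mem_filter.1 (Finset.mem_filter.1 ht).1).1
        exact (Finset.mem_product.1 this).1)
    have h2 : ∀ a ∈ Finset.range (M + 1),
        ((((T.filter (fun t => bad t.1 t.2)).filter (fun t => t.1 = a)).card : ℕ) : ℝ) ≤ Bd := by
      intro a _
      set F := (T.filter (fun t => bad t.1 t.2)).filter (fun t => t.1 = a) with hF
      rcases F.eq_empty_or_nonempty with h0 | ⟨t0, ht0⟩
      · rw [h0]; simp; exact hBd.le
      · have hFm : ∀ t ∈ F, t.1 = a ∧ bad t.1 t.2 ∧ τ / 2 ≤ t.1 * κ ∧ (t.1 : ℝ) * κ ≤ 1 ∧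
            ε * τ / 2 ≤ t.2 * κ := by
          intro t ht
          have u1 := Finset.mem_filter.1 ht
          have u2 := Finset.mem_filter.1 u1.1
          have u3 := (Finset.mem_filter.1 u2.1).2
          exact ⟨u1.2, u2.2, u3.1, u3.2.1, u3.2.2.1⟩
        have ha := hFm t0 ht0
        have hcF : F.card = (F.image Prod.snd).card := by
          rw [Finset.card_image_of_injOn]
          intro p hp q hq hpq
          exact Prod.ext ((hFm p hp).1.trans (hFm q hq).1.symm) hpq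
        rw [hcF]
        apply hbad a (by rw [← ha.1]; exact ha.2.2.1) (by rw [← ha.1]; exact ha.2.2.2.1)
        intro b hb
        obtain ⟨t, ht, rfl⟩ := Finset.mem_image.1 hb
        have := hFm t ht
        exact ⟨this.2.2.2.2, by rw [← this.1]; exact this.2.1⟩
    rw [h1]
    push_cast
    calc ∑ a ∈ Finset.range (M + 1),
          ((((T.filter (fun t => bad t.1 t.2)).filter (fun t => t.1 = a)).card : ℕ) : ℝ)
        ≤ ∑ a ∈ Finset.range (M + 1), Bd := Finset.sum_le_sum h2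
      _ = ((M : ℝ) + 1) * Bd := by rw [Finset.sum_const, Finset.card_range, nsmul_eq_mul]; push_cast; ring
      _ ≤ 2 / κ * Bd := mul_le_mul_of_nonneg_right hM2 hBd.le
  have hc2 : (S2.card : ℝ) ≤ δ * R ^ 2 / 4 + δ * R ^ 2 / 4 := by
    rw [hsum, ← Finset.sum_filter_add_sum_filter_not T (fun t => bad t.1 t.2)]
    apply add_le_add
    · calc ∑ t ∈ T.filter (fun t => bad t.1 t.2), ((S2.filter (fun p => sq p = t)).card : ℝ)
          ≤ ∑ t ∈ T.filter (fun t => bad t.1 t.2), (2 * (κ * R)) ^ 2 := by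
            apply Finset.sum_le_sum
            intro t _
            refine le_trans (card_square _ (R * (t.1 * κ)) (R * (t.2 * κ)) (κ * R) hκRpos.le
              (hfibre t)) ?_
            apply pow_le_pow_left₀ (by positivity)
            linarith
        _ = ((T.filter (fun t => bad t.1 t.2)).card : ℝ) * (2 * (κ * R)) ^ 2 := by
            rw [Finset.sum_const, nsmul_eq_mul]
        _ ≤ (2 / κ * Bd) * (2 * (κ * R)) ^ 2 := mul_le_mul_of_nonneg_right hTb (by positivity)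
        _ = 8 * (κ * Bd) * R ^ 2 := by field_simp; ring
        _ ≤ 8 * (δ / 32) * R ^ 2 := by
            apply mul_le_mul_of_nonneg_right _ (by positivity)
            linarith
        _ = δ * R ^ 2 / 4 := by ring
    · calc ∑ t ∈ T.filter (fun t => ¬ bad t.1 t.2), ((S2.filter (fun p => sq p = t)).card : ℝ)
          ≤ ∑ t ∈ T.filter (fun t => ¬ bad t.1 t.2), (δ / 16 * (κ * R) ^ 2) := by
            apply Finset.sum_le_sum
            intro t ht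
            have u := Finset.mem_filter.1 ht
            refine (hthr t u.1 u.2 R ((hR1 t u.1).trans hR1') _ ?_ (hfibre t)).le
            intro p hp
            have hp' : p ∈ S2 := (Finset.mem_filter.1 (Finset.mem_coe.1 hp)).1
            exact (hSm p (Finset.mem_filter.1 hp').1).1
        _ = ((T.filter (fun t => ¬ bad t.1 t.2)).card : ℝ) * (δ / 16 * (κ * R) ^ 2) := by
            rw [Finset.sum_const, nsmul_eq_mul]
        _ ≤ (4 / κ ^ 2) * (δ / 16 * (κ * R) ^ 2) := by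
            apply mul_le_mul_of_nonneg_right _ (by positivity)
            refine le_trans ?_ hTc
            exact_mod_cast Finset.card_filter_le _ _
        _ = δ * R ^ 2 / 4 := by field_simp; ring
  have hfin : (S.card : ℝ) = (S1.card : ℝ) + (S2.card : ℝ) := by exact_mod_cast hcard
  have hpos : 0 < δ * (R : ℝ) ^ 2 := by positivity
  linarith

end Run7.h237.MU
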